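import Pool.Agent.U588.LBP.Stm

set_option autoImplicit false

/-! Project LB, package DIRU: assembly of the parts. -/

namespace Pool.Agent.U588.LBP

open U722.FF V7N CategoryTheory MulAction

attribute [local instance] V7N.bcF_additive VN831.bcFunctor_additive

section om

variable {R : Type} [Ring R]

theorem cov_single (N : Type) [AddCommGroup N] [Module R N] (x : N) :
    cov R N (Finsupp.single x 1) = x := by
  simp [cov]

theorem cov_surj (N : Type) [AddCommGroup N] [Module R N] : Function.Surjective (cov R N) :=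
  fun x => ⟨Finsupp.single x 1, cov_single N x⟩

theorem ex0 (M : ModuleCat.{0} R) (v : Om M 0 →₀ R) :
    cov R (Om M 0) v = 0 ↔ ∃ w, dO M 0 w = v := by
  constructor
  · intro h
    refine ⟨Finsupp.single ⟨v, h⟩ 1, ?_⟩
    show ((cov R (LinearMap.ker (cov R (Om M 0))) (Finsupp.single ⟨v, h⟩ 1) :
      LinearMap.ker (cov R (Om M 0))) : Om M 0 →₀ R) = v
    rw [cov_single]
  · rintro ⟨w, rfl⟩
    exact (cov R (LinearMap.ker (cov R (Om M 0))) w).2

theorem exs (M : ModuleCat.{0} R) (n : ℕ) (v : Om M (n + 1) →₀ R) :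
    dO M n v = 0 ↔ ∃ w, dO M (n + 1) w = v := by
  have h1 : dO M n v = 0 ↔ cov R (Om M (n + 1)) v = 0 := by
    constructor
    · intro h
      exact Subtype.ext h
    · intro h
      exact congrArg Subtype.val h
  rw [h1]
  constructor
  · intro h
    refine ⟨Finsupp.single ⟨v, h⟩ 1, ?_⟩
    show ((cov R (LinearMap.ker (cov R (Om M (n + 1)))) (Finsupp.single ⟨v, h⟩ 1) :
      LinearMap.ker (cov R (Om M (n + 1)))) : Om M (n + 1) →₀ R) = v
    rw [cov_single]
  · rintro ⟨w, rfl⟩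
    exact (cov R (LinearMap.ker (cov R (Om M (n + 1)))) w).2

theorem dO_nat {M N : ModuleCat.{0} R} (f : M →ₗ[R] N) (n : ℕ) :
    (dO N n).comp (Finsupp.lmapDomain R R (Omf f (n + 1))) =
      (Finsupp.lmapDomain R R (Omf f n)).comp (dO M n) := by
  apply LinearMap.ext
  intro v
  have h1 := cov_map (Omf f (n + 1)) v
  exact congrArg Subtype.val h1

end om

section bc

variable {G U : Type} [Group G] [Ring U] (c : G →* U)

theorem bcM_comp {P Q S : Type} [AddCommGroup P] [Module (MonoidAlgebra ℤ G) P] [AddCommGroup Q]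
    [Module (MonoidAlgebra ℤ G) Q] [AddCommGroup S] [Module (MonoidAlgebra ℤ G) S]
    (f : P →ₗ[MonoidAlgebra ℤ G] Q) (g : Q →ₗ[MonoidAlgebra ℤ G] S) :
    bcM c (g.comp f) = (bcM c g).comp (bcM c f) := by
  apply bc_ind
  intro p
  rfl

theorem bcM_comp' {P Q S : Type} [AddCommGroup P] [Module (MonoidAlgebra ℤ G) P] [AddCommGroup Q]
    [Module (MonoidAlgebra ℤ G) Q] [AddCommGroup S] [Module (MonoidAlgebra ℤ G) S]
    (f : P →ₗ[MonoidAlgebra ℤ G] Q) (g : Q →ₗ[MonoidAlgebra ℤ G] S) (z : BCG c P) :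
    bcM c g (bcM c f z) = bcM c (g.comp f) z := by
  rw [bcM_comp]
  rfl

/-- the criterion for the canonical resolution -/
theorem canon (hLD : S_LD) (M : ModuleCat.{0} (MonoidAlgebra ℤ G)) :
    (∀ n, Limits.IsZero (((bcF c).leftDerived (n + 1)).obj M) ↔
      ∀ z : BCG c (Om M (n + 1) →₀ MonoidAlgebra ℤ G), bcM c (dO M n) z = 0 →
        ∃ w, bcM c (dO M (n + 1)) w = z) ∧
    (Limits.IsZero (((bcF c).leftDerived 0).obj M) ↔
      ∀ z : BCG c (Om M 0 →₀ MonoidAlgebra ℤ G), ∃ w, bcM c (dO M 0) w = z) :=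
  hLD G U c M (fun n => (Om M n →₀ MonoidAlgebra ℤ G)) (fun n => dO M n) (cov (MonoidAlgebra ℤ G) M)
    (fun n => inferInstance) (cov_surj _) (ex0 M) (exs M)

end bc

theorem lmap_comp {R : Type} [Ring R] {X Y Z : Type} (f : X → Y) (g : Y → Z) (h : X → Z)
    (e : ∀ x, g (f x) = h x) :
    (Finsupp.lmapDomain R R g).comp (Finsupp.lmapDomain R R f) = Finsupp.lmapDomain R R h := by
  apply LinearMap.ext
  intro v
  show Finsupp.mapDomain g (Finsupp.mapDomain f v) = Finsupp.mapDomain h v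
  rw [← Finsupp.mapDomain_comp]
  congr 1
  funext x
  exact e x

theorem t_DIRU (hLD : S_LD) (hMRZ : S_MRZ) (hBCX : S_BCX) (hDFR : S_DFR) (hDOM : S_DOM) (hGH : S_GH)
    (hMIND : S_MIND) : S_DIRU := by
  intro G U _ _ c k hk n hn
  obtain ⟨t, l, hD⟩ := hGH G
  obtain ⟨E, hE⟩ := hBCX G U c
  set N : {H : Subgroup G // Group.FG H} → ModuleCat.{0} (MonoidAlgebra ℤ G) :=
    fun i => ModuleCat.of (MonoidAlgebra ℤ G) (PM G (G ⧸ i.1)) with hN
  have hz : ∀ i, ∀ m, k ≤ m → Limits.IsZero (((bcF c).leftDerived m).obj (N i)) := by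
    intro i m hm
    have hst : stabilizer G ((1 : G) : G ⧸ i.1) = i.1 := stabilizer_quotient i.1
    have hfg : Group.FG (stabilizer G ((1 : G) : G ⧸ i.1)) := by
      rw [hst]; exact i.2
    have h1 := hMIND G (G ⧸ i.1) U c k ((1 : G) : G ⧸ i.1)
      (fun y => MulAction.exists_smul_eq G _ y) (hk _ hfg)
    exact hMRZ G U c k _ h1 m hm
  have hDm := hDOM (MonoidAlgebra ℤ G) _ N (trivG G) t l hD
  -- every element comes from a finitely generated subgroup
  have hlift : ∀ (m : ℕ) (z : BCG c (Om (trivG G) m →₀ MonoidAlgebra ℤ G)),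
      ∃ i, ∃ z0 : BCG c (Om (N i) m →₀ MonoidAlgebra ℤ G),
        bcM c (Finsupp.lmapDomain (MonoidAlgebra ℤ G) (MonoidAlgebra ℤ G) (Omf (l i) m)) z0 = z := by
    intro m z
    obtain ⟨i, w, hw⟩ := (hDFR _ _ _ _ _ _ (hDm m) U).1 (E _ z)
    refine ⟨i, (E _).symm w, ?_⟩
    apply (E _).injective
    rw [hE, AddEquiv.apply_symm_apply]
    exact hw
  have hkill : ∀ (m : ℕ) (i) (y : BCG c (Om (N i) m →₀ MonoidAlgebra ℤ G)),
      bcM c (Finsupp.lmapDomain (MonoidAlgebra ℤ G) (MonoidAlgebra ℤ G) (Omf (l i) m)) y = 0 →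
      ∃ j, ∃ h : i ≤ j,
        bcM c (Finsupp.lmapDomain (MonoidAlgebra ℤ G) (MonoidAlgebra ℤ G) (Omf (t i j h) m)) y = 0 := by
    intro m i y hy
    have h1 := congrArg (E _) hy
    rw [hE, map_zero] at h1
    obtain ⟨j, h, hj⟩ := (hDFR _ _ _ _ _ _ (hDm m) U).2 i (E _ y) h1
    refine ⟨j, h, ?_⟩
    apply (E _).injective
    rw [hE, map_zero]
    exact hj
  show Limits.IsZero (((bcF c).leftDerived n).obj (trivG G))
  cases n with
  | zero =>
    rw [(canon c hLD (trivG G)).2]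
    intro z
    obtain ⟨i, z0, hz0⟩ := hlift 0 z
    obtain ⟨w0, hw0⟩ := ((canon c hLD (N i)).2.1 (hz i 0 hn)) z0
    refine ⟨bcM c (Finsupp.lmapDomain (MonoidAlgebra ℤ G) (MonoidAlgebra ℤ G) (Omf (l i) 1)) w0, ?_⟩
    rw [bcM_comp', dO_nat, ← bcM_comp', hw0, hz0]
  | succ m =>
    rw [(canon c hLD (trivG G)).1]
    intro z hzz
    obtain ⟨i, z0, hz0⟩ := hlift (m + 1) z
    have h1 : bcM c (Finsupp.lmapDomain (MonoidAlgebra ℤ G) (MonoidAlgebra ℤ G) (Omf (l i) m))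
        (bcM c (dO (N i) m) z0) = 0 := by
      rw [bcM_comp', ← dO_nat, ← bcM_comp', hz0, hzz]
    obtain ⟨j, h, hj⟩ := hkill m i _ h1
    have h2 : bcM c (dO (N j) m) (bcM c (Finsupp.lmapDomain (MonoidAlgebra ℤ G) (MonoidAlgebra ℤ G)
        (Omf (t i j h) (m + 1))) z0) = 0 := by
      rw [bcM_comp', dO_nat, ← bcM_comp', hj]
    obtain ⟨w1, hw1⟩ := ((canon c hLD (N j)).1 m).1 (hz j (m + 1) hn) _ h2
    refine ⟨bcM c (Finsupp.lmapDomain (MonoidAlgebra ℤ G) (MonoidAlgebra ℤ G) (Omf (l j) (m + 2))) w1, ?_⟩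
    rw [bcM_comp', dO_nat, ← bcM_comp', hw1, bcM_comp',
      lmap_comp (Omf (t i j h) (m + 1)) (Omf (l j) (m + 1)) (Omf (l i) (m + 1))
        ((hDm (m + 1)).compl i j h), hz0]

end Pool.Agent.U588.LBP
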