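import Pool.Agent.U588.LBP.Stm
import Pool.Agent.Helper970.V7.P_proj_res
import Pool.Agent.Helper970.V7.P_homology_succ
import Pool.Agent.Helper970.V7.P_homology_zero

set_option autoImplicit false

namespace Pool.Agent.U588.LBP

open U722.FF V7N CategoryTheory

attribute [local instance] V7N.bcF_additive VN831.bcFunctor_additive

theorem isZero_iff_sub {R : Type} [Ring R] (M : ModuleCat.{0} R) :
    Limits.IsZero M ↔ Subsingleton M := by
  constructor
  · intro h
    have := (ModuleCat.isZero_iff_subsingleton (M := M)).mp h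
    exact this
  · intro h
    exact ModuleCat.isZero_of_subsingleton M

theorem t_LDx : S_LD := by
  intro G U _ _ c M _ _ P _ _ d ε hproj hs h0 h1
  have sq : ∀ n, ModuleCat.ofHom (d (n + 1)) ≫ ModuleCat.ofHom (d n) = 0 := by
    intro n
    apply ModuleCat.hom_ext
    apply LinearMap.ext
    intro v
    exact (h1 n _).2 ⟨v, rfl⟩
  obtain ⟨Q, hQ⟩ := gen_res (fun n => ModuleCat.of (MonoidAlgebra ℤ G) (P n))
    (fun n => ModuleCat.ofHom (d n)) sq (ModuleCat.of (MonoidAlgebra ℤ G) M) (ModuleCat.ofHom ε)
    (fun n => (IsProjective.iff_projective (R := MonoidAlgebra ℤ G) (P n)).1 (hproj n))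
    (by
      apply ModuleCat.hom_ext
      apply LinearMap.ext
      intro v
      exact (h0 _).2 ⟨v, rfl⟩)
    hs (fun v hv => (h0 v).1 hv) (fun n v hv => (h1 n v).1 hv)
  set K := ((bcF c).mapHomologicalComplex _).obj Q.complex with hK
  have hiso : ∀ n, Limits.IsZero (((bcF c).leftDerived n).obj (ModuleCat.of (MonoidAlgebra ℤ G) M)) ↔
      Limits.IsZero (K.homology n) := fun n => (Q.isoLeftDerivedObj (bcF c) n).isZero_iff
  have hK' : K = ((bcF c).mapHomologicalComplex _).obj (ChainComplex.of
      (fun n => ModuleCat.of (MonoidAlgebra ℤ G) (P n)) (fun n => ModuleCat.ofHom (d n)) sq) := by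
    rw [hK, hQ]
  have hd : ∀ n, (((bcF c).mapHomologicalComplex _).obj (ChainComplex.of
      (fun n => ModuleCat.of (MonoidAlgebra ℤ G) (P n)) (fun n => ModuleCat.ofHom (d n)) sq)).d (n + 1) n =
        (bcF c).map (ModuleCat.ofHom (d n)) := by
    intro n
    have e : (ChainComplex.of (fun n => ModuleCat.of (MonoidAlgebra ℤ G) (P n))
      (fun n => ModuleCat.ofHom (d n)) sq).d (n + 1) n = ModuleCat.ofHom (d n) :=
      ChainComplex.of_d (fun n => ModuleCat.of (MonoidAlgebra ℤ G) (P n))
        (fun n => ModuleCat.ofHom (d n)) n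
    exact congrArg (bcF c).map e
  constructor
  · intro n
    rw [hiso, hK', isZero_iff_sub]
    obtain ⟨e⟩ := homology_succ (((bcF c).mapHomologicalComplex _).obj (ChainComplex.of
      (fun n => ModuleCat.of (MonoidAlgebra ℤ G) (P n)) (fun n => ModuleCat.ofHom (d n)) sq)) n
    rw [e.toEquiv.subsingleton_congr, Submodule.Quotient.subsingleton_iff]
    rw [hd n, hd (n + 1)]
    constructor
    · intro h z hz
      exact (Submodule.eq_top_iff'.mp h) ⟨z, hz⟩
    · intro h
      apply Submodule.eq_top_iff'.mpr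
      rintro ⟨z, hz⟩
      exact h z hz
  · rw [hiso, hK', isZero_iff_sub]
    obtain ⟨e⟩ := homology_zero (((bcF c).mapHomologicalComplex _).obj (ChainComplex.of
      (fun n => ModuleCat.of (MonoidAlgebra ℤ G) (P n)) (fun n => ModuleCat.ofHom (d n)) sq))
    rw [e.toEquiv.subsingleton_congr, Submodule.Quotient.subsingleton_iff]
    rw [hd 0]
    constructor
    · intro h z
      exact (Submodule.eq_top_iff'.mp h) z
    · intro h
      apply Submodule.eq_top_iff'.mpr
      intro z
      exact h z

end Pool.Agent.U588.LBP
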