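import Pool.Agent.U588.LBP.Stm

set_option autoImplicit false

namespace Pool.Agent.U588.LBP

open U722.FF V7N CategoryTheory MulAction

section

variable {G : Type} [Group G]

/-- the map of the cosets -/
def qm {H K : Subgroup G} (h : H ≤ K) : G ⧸ H → G ⧸ K := Subgroup.quotientMapOfLE h

theorem qm_smul {H K : Subgroup G} (h : H ≤ K) (g : G) (x : G ⧸ H) : qm h (g • x) = g • qm h x := by
  induction x using QuotientGroup.induction_on with
  | H x => rfl

noncomputable def tm {H K : Subgroup G} (h : H ≤ K) : PM G (G ⧸ H) →ₗ[MonoidAlgebra ℤ G] PM G (G ⧸ K) :=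
  PMlift (fun x => pt G (qm h x)) (fun g x => by rw [qm_smul, of_smul_pt])

theorem tm_pt {H K : Subgroup G} (h : H ≤ K) (x : G ⧸ H) : tm h (pt G x) = pt G (qm h x) := PMlift_pt _ _ x

/-- the element `1` of the trivial module -/
noncomputable def oneT (G : Type) [Group G] : trivG G := (show ℤ from 1)

theorem of_smul_oneT (g : G) : MonoidAlgebra.of ℤ G g • oneT G = oneT G := by
  have h1 : augG G (MonoidAlgebra.of ℤ G g) = 1 := by simp [augG]
  show (augG G (MonoidAlgebra.of ℤ G g)) • (1 : ℤ) = (1 : ℤ)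
  rw [h1]
  rfl

noncomputable def lm (X : Type) [MulAction G X] : PM G X →ₗ[MonoidAlgebra ℤ G] trivG G :=
  PMlift (fun _ => oneT G) (fun g _ => (of_smul_oneT g).symm)

theorem lm_pt {X : Type} [MulAction G X] (x : X) : lm X (pt G x) = oneT G := PMlift_pt _ _ x

theorem PM_sum {X : Type} [MulAction G X] (x : PM G X) :
    ∃ (S : Finset X) (n : X → ℤ), x = ∑ s ∈ S, n s • pt G s := by
  refine ⟨(show X →₀ ℤ from x).support, fun s => (show X →₀ ℤ from x) s, ?_⟩
  have h1 := Finsupp.sum_single (show X →₀ ℤ from x)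
  refine h1.symm.trans ?_
  unfold Finsupp.sum
  apply Finset.sum_congr rfl
  intro s _
  exact (Finsupp.smul_single_one s _).symm

theorem oneT_inj (m : ℤ) (h : m • oneT G = 0) : m = 0 := by
  have h1 : (m • (1 : ℤ)) = 0 := h
  simpa using h1

end

theorem t_GHx : S_GH := by
  intro G _
  classical
  refine ⟨fun i j h => tm (H := i.1) (K := j.1) h, fun i => lm (G ⧸ i.1), ?_, ?_, ?_, ?_, ?_, ?_⟩
  · exact ⟨⟨⊥, inferInstance⟩⟩
  · intro i j
    have h1 : (i.1 ⊔ j.1).FG := Subgroup.FG.sup ((Group.fg_iff_subgroup_fg i.1).mp i.2)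
      ((Group.fg_iff_subgroup_fg j.1).mp j.2)
    exact ⟨⟨i.1 ⊔ j.1, (Group.fg_iff_subgroup_fg _).mpr h1⟩, (le_sup_left : i.1 ≤ i.1 ⊔ j.1),
      (le_sup_right : j.1 ≤ i.1 ⊔ j.1)⟩
  · intro i j k h h' x
    show tm (H := j.1) (K := k.1) h' (tm (H := i.1) (K := j.1) h x) = tm (H := i.1) (K := k.1) _ x
    obtain ⟨S, n, rfl⟩ := PM_sum (G := G) (X := G ⧸ i.1) x
    rw [map_sum, map_sum, map_sum]
    apply Finset.sum_congr rfl
    intro s _
    rw [map_zsmul, map_zsmul, map_zsmul, tm_pt, tm_pt, tm_pt]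
    congr 2
    induction s using QuotientGroup.induction_on with
    | H x => rfl
  · intro i j h x
    show lm (G ⧸ j.1) (tm (H := i.1) (K := j.1) h x) = lm (G ⧸ i.1) x
    obtain ⟨S, n, rfl⟩ := PM_sum (G := G) (X := G ⧸ i.1) x
    rw [map_sum, map_sum, map_sum]
    apply Finset.sum_congr rfl
    intro s _
    rw [map_zsmul, map_zsmul, map_zsmul, tm_pt, lm_pt, lm_pt]
  · intro y
    refine ⟨⟨⊥, inferInstance⟩, (show ℤ from y) • pt G ((1 : G) : G ⧸ (⊥ : Subgroup G)), ?_⟩
    show lm (G ⧸ (⊥ : Subgroup G)) _ = y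
    rw [map_zsmul, lm_pt]
    show (show ℤ from y) • (1 : ℤ) = (show ℤ from y)
    simp
  · intro i x hx
    obtain ⟨S, n, hS⟩ := PM_sum (G := G) (X := G ⧸ i.1) x
    have hx' : lm (G ⧸ i.1) x = 0 := hx
    rw [hS, map_sum] at hx'
    have hsum : (∑ s ∈ S, n s) • oneT G = 0 := by
      rw [Finset.sum_smul, ← hx']
      apply Finset.sum_congr rfl
      intro s _
      rw [map_zsmul, lm_pt]
    have hz : ∑ s ∈ S, n s = 0 := oneT_inj _ hsum
    set T : Finset G := (S ×ˢ S).image (fun p => (Quotient.out p.1)⁻¹ * Quotient.out p.2) with hT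
    have hFG : (i.1 ⊔ Subgroup.closure (T : Set G)).FG :=
      Subgroup.FG.sup ((Group.fg_iff_subgroup_fg i.1).mp i.2) ⟨T, rfl⟩
    have hle : i.1 ≤ i.1 ⊔ Subgroup.closure (T : Set G) := le_sup_left
    refine ⟨⟨i.1 ⊔ Subgroup.closure (T : Set G), (Group.fg_iff_subgroup_fg _).mpr hFG⟩, hle, ?_⟩
    show tm hle x = 0
    have hq : ∀ s ∈ S, ∀ s' ∈ S, qm hle s = qm hle s' := by
      intro s hs s' hs'
      have e1 : s = ((Quotient.out s : G) : G ⧸ i.1) := (QuotientGroup.out_eq' s).symm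
      have e2 : s' = ((Quotient.out s' : G) : G ⧸ i.1) := (QuotientGroup.out_eq' s').symm
      have h1 : qm hle s = ((Quotient.out s : G) : G ⧸ (i.1 ⊔ Subgroup.closure (T : Set G))) := by
        conv_lhs => rw [e1]
        rfl
      have h2 : qm hle s' = ((Quotient.out s' : G) : G ⧸ (i.1 ⊔ Subgroup.closure (T : Set G))) := by
        conv_lhs => rw [e2]
        rfl
      rw [h1, h2, QuotientGroup.eq]
      apply (le_sup_right : Subgroup.closure (T : Set G) ≤ i.1 ⊔ Subgroup.closure (T : Set G))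
      apply Subgroup.subset_closure
      rw [hT, Finset.mem_coe, Finset.mem_image]
      exact ⟨(s, s'), Finset.mem_product.mpr ⟨hs, hs'⟩, rfl⟩
    rcases S.eq_empty_or_nonempty with h0 | ⟨s0, hs0⟩
    · rw [hS, h0, Finset.sum_empty, map_zero]
    · rw [hS, map_sum]
      have : ∀ s ∈ S, tm hle (n s • pt G s) = n s • pt G (qm hle s0) := by
        intro s hs
        rw [map_zsmul, tm_pt, hq s hs s0 hs0]
      rw [Finset.sum_congr rfl this, ← Finset.sum_smul, hz, zero_smul]

end Pool.Agent.U588.LBP
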