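import Pool.Agent.U722.FF.Stm4

set_option autoImplicit false
set_option linter.unusedSectionVars false

/-! Project LB, package DIRU: statements of the parts. `P n M = (Om n M →₀ R)` is the canonical free resolution of
the module `M`: `Om 0 M = M`, `Om (n+1) M = ker (Om n M →₀ R → Om n M)`. -/

namespace Pool.Agent.U588.LBP

open U722.FF V7N CategoryTheory

attribute [local instance] V7N.bcF_additive VN831.bcFunctor_additive

/-- LD: a projective resolution computes the derived functors -/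
def S_LD : Prop := ∀ (G U : Type) [Group G] [Ring U] (c : G →* U) (M : Type) [AddCommGroup M]
  [Module (MonoidAlgebra ℤ G) M] (P : ℕ → Type) [∀ n, AddCommGroup (P n)]
  [∀ n, Module (MonoidAlgebra ℤ G) (P n)] (d : ∀ n, P (n + 1) →ₗ[MonoidAlgebra ℤ G] P n)
  (ε : P 0 →ₗ[MonoidAlgebra ℤ G] M),
  (∀ n, Module.Projective (MonoidAlgebra ℤ G) (P n)) → Function.Surjective ε →
  (∀ v, ε v = 0 ↔ ∃ w, d 0 w = v) → (∀ n v, d n v = 0 ↔ ∃ w, d (n + 1) w = v) →
  (∀ n, Limits.IsZero (((bcF c).leftDerived (n + 1)).obj (ModuleCat.of (MonoidAlgebra ℤ G) M)) ↔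
    ∀ z : BCG c (P (n + 1)), bcM c (d n) z = 0 → ∃ w, bcM c (d (n + 1)) w = z) ∧
  (Limits.IsZero (((bcF c).leftDerived 0).obj (ModuleCat.of (MonoidAlgebra ℤ G) M)) ↔
    ∀ z : BCG c (P 0), ∃ w, bcM c (d 0) w = z)

/-- MRZ: resolutions by matrices which are exact over `U` in degrees at least `k`. The package is `S_LD → S_MRZ`. -/
def S_MRZ : Prop := ∀ (G U : Type) [Group G] [Ring U] (c : G →* U) (k : ℕ) (M : Type) [AddCommGroup M]
  [Module (MonoidAlgebra ℤ G) M], MR (evM c) k M → ∀ n, k ≤ n →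
  Limits.IsZero (((bcF c).leftDerived n).obj (ModuleCat.of (MonoidAlgebra ℤ G) M))

/-- BCX: base change of free modules -/
def S_BCX : Prop := ∀ (G U : Type) [Group G] [Ring U] (c : G →* U),
  ∃ E : ∀ X : Type, BCG c (X →₀ MonoidAlgebra ℤ G) ≃+ (X →₀ U), ∀ (X Y : Type) (f : X → Y)
    (z : BCG c (X →₀ MonoidAlgebra ℤ G)),
    E Y (bcM c (Finsupp.lmapDomain (MonoidAlgebra ℤ G) (MonoidAlgebra ℤ G) f) z) =
      Finsupp.mapDomain f (E X z)

section om

variable {R : Type} [Ring R]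

/-- the canonical map from the free module on the set `N` to `N` -/
noncomputable def cov (R : Type) [Ring R] (N : Type) [AddCommGroup N] [Module R N] : (N →₀ R) →ₗ[R] N :=
  Finsupp.linearCombination R id

theorem cov_map {N L : Type} [AddCommGroup N] [Module R N] [AddCommGroup L] [Module R L]
    (f : N →ₗ[R] L) (v : N →₀ R) : cov R L (Finsupp.lmapDomain R R f v) = f (cov R N v) := by
  unfold cov
  induction v using Finsupp.induction_linear with
  | zero => simp
  | add v w hv hw => rw [map_add, map_add, hv, hw, map_add, map_add]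
  | single x r => simp

/-- the syzygies of the canonical resolution -/
noncomputable def Om (M : ModuleCat.{0} R) : ℕ → ModuleCat.{0} R
  | 0 => M
  | n + 1 => ModuleCat.of R (LinearMap.ker (cov R (Om M n)))

/-- functoriality of the kernels -/
noncomputable def kf {N L : Type} [AddCommGroup N] [Module R N] [AddCommGroup L] [Module R L]
    (f : N →ₗ[R] L) : LinearMap.ker (cov R N) →ₗ[R] LinearMap.ker (cov R L) :=
  LinearMap.codRestrict _ ((Finsupp.lmapDomain R R f).comp (LinearMap.ker (cov R N)).subtype) (by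
    rintro ⟨v, hv⟩
    have hv' : cov R N v = 0 := hv
    show cov R L (Finsupp.lmapDomain R R f v) = 0
    rw [cov_map, hv', map_zero])

/-- functoriality of the syzygies -/
noncomputable def Omf {M N : ModuleCat.{0} R} (f : M →ₗ[R] N) : ∀ n, Om M n →ₗ[R] Om N n
  | 0 => f
  | n + 1 => kf (Omf f n)

/-- the differential of the canonical resolution -/
noncomputable def dO (M : ModuleCat.{0} R) (n : ℕ) : (Om M (n + 1) →₀ R) →ₗ[R] (Om M n →₀ R) :=
  (LinearMap.ker (cov R (Om M n))).subtype.comp (cov R (LinearMap.ker (cov R (Om M n))))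

/-- `L` is the directed colimit of the modules `N i` -/
structure Dir {J : Type} [Preorder J] (N : J → ModuleCat.{0} R) (L : ModuleCat.{0} R)
    (t : ∀ i j, i ≤ j → (N i →ₗ[R] N j)) (l : ∀ i, N i →ₗ[R] L) : Prop where
  ne : Nonempty J
  dir : ∀ i j : J, ∃ k, i ≤ k ∧ j ≤ k
  comp : ∀ i j k (h : i ≤ j) (h' : j ≤ k) x, t j k h' (t i j h x) = t i k (h.trans h') x
  compl : ∀ i j (h : i ≤ j) x, l j (t i j h x) = l i x
  surj : ∀ y, ∃ i x, l i x = y
  inj : ∀ i x, l i x = 0 → ∃ j, ∃ h : i ≤ j, t i j h x = 0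

/-- DFR: free modules on directed colimits -/
def S_DFR : Prop := ∀ (R : Type) [Ring R] (J : Type) [Preorder J] (N : J → ModuleCat.{0} R)
  (L : ModuleCat.{0} R) (t : ∀ i j, i ≤ j → (N i →ₗ[R] N j)) (l : ∀ i, N i →ₗ[R] L), Dir N L t l →
  ∀ (A : Type) [AddCommGroup A], (∀ v : L →₀ A, ∃ (i : J) (w : N i →₀ A), Finsupp.mapDomain (l i) w = v) ∧
    ∀ (i : J) (w : N i →₀ A), Finsupp.mapDomain (l i) w = 0 →
      ∃ j, ∃ h : i ≤ j, Finsupp.mapDomain (t i j h) w = 0

/-- DOM: the syzygies commute with directed colimits. The package is `S_DFR → S_DOM`. -/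
def S_DOM : Prop := ∀ (R : Type) [Ring R] (J : Type) [Preorder J] (N : J → ModuleCat.{0} R)
  (L : ModuleCat.{0} R) (t : ∀ i j, i ≤ j → (N i →ₗ[R] N j)) (l : ∀ i, N i →ₗ[R] L), Dir N L t l →
  ∀ n, Dir (fun i => Om (N i) n) (Om L n) (fun i j h => Omf (t i j h) n) (fun i => Omf (l i) n)

end om

/-- GH: the trivial module is the directed colimit of the modules `ℤ[G/H]`, `H` finitely generated -/
def S_GH : Prop := ∀ (G : Type) [Group G], ∃ (t : ∀ i j : {H : Subgroup G // Group.FG H}, i ≤ j →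
    (ModuleCat.of (MonoidAlgebra ℤ G) (PM G (G ⧸ i.1)) →ₗ[MonoidAlgebra ℤ G]
      ModuleCat.of (MonoidAlgebra ℤ G) (PM G (G ⧸ j.1))))
  (l : ∀ i : {H : Subgroup G // Group.FG H}, ModuleCat.of (MonoidAlgebra ℤ G) (PM G (G ⧸ i.1))
      →ₗ[MonoidAlgebra ℤ G] trivG G),
  Dir (fun i : {H : Subgroup G // Group.FG H} => ModuleCat.of (MonoidAlgebra ℤ G) (PM G (G ⧸ i.1)))
    (trivG G) t l

end Pool.Agent.U588.LBP
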